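import Pool.Agent.QSX.StmtsM

set_option autoImplicit false

namespace Pool.Agent.QSX.H75

open Filter Topology Pool.Agent.QSX

section mean

variable {G : Type} [Group G] {M : (G → ℝ) → ℝ}

theorem mean_const (hM : IsMean M) (c : ℝ) : M (fun _ => c) = c := by
  have h := hM.smul c (fun _ => 1) ⟨1, fun _ => by simp⟩
  have e : (c • (fun _ : G => (1 : ℝ))) = fun _ => c := by
    funext x; simp
  rw [e, hM.one, mul_one] at h
  exact h

theorem mean_mono (hM : IsMean M) {f g : G → ℝ} (hf : ∃ C, ∀ x, |f x| ≤ C)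
    (hg : ∃ C, ∀ x, |g x| ≤ C) (h : ∀ x, f x ≤ g x) : M f ≤ M g := by
  have hf' : ∃ C, ∀ x, |((-1 : ℝ) • f) x| ≤ C := by
    obtain ⟨C, hC⟩ := hf
    refine ⟨C, fun x => ?_⟩
    rw [Pi.smul_apply, smul_eq_mul, neg_one_mul, abs_neg]
    exact hC x
  have hs : ∃ C, ∀ x, |(g + (-1 : ℝ) • f) x| ≤ C := by
    obtain ⟨C, hC⟩ := hf'
    obtain ⟨D, hD⟩ := hg
    exact ⟨D + C, fun x => (abs_add_le _ _).trans (add_le_add (hD x) (hC x))⟩
  have h1 := hM.pos (g + (-1 : ℝ) • f) hs (fun x => by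
    rw [Pi.add_apply, Pi.smul_apply, smul_eq_mul, neg_one_mul]
    linarith [h x])
  rw [hM.add _ _ hg hf', hM.smul _ _ hf] at h1
  linarith

theorem mean_sum (hM : IsMean M) {α : Type} (T : Finset α) (f : α → G → ℝ)
    (hf : ∀ t ∈ T, ∃ C, ∀ x, |f t x| ≤ C) :
    (∃ C, ∀ x, |∑ t ∈ T, f t x| ≤ C) ∧ M (fun x => ∑ t ∈ T, f t x) = ∑ t ∈ T, M (f t) := by
  classical
  induction T using Finset.induction_on with
  | empty =>
    refine ⟨⟨0, fun x => by simp⟩, ?_⟩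
    simp only [Finset.sum_empty]
    exact mean_const hM 0
  | insert a s ha ih =>
    obtain ⟨⟨C, hC⟩, hsum⟩ := ih (fun t ht => hf t (Finset.mem_insert_of_mem ht))
    obtain ⟨D, hD⟩ := hf a (Finset.mem_insert_self _ _)
    refine ⟨⟨D + C, fun x => ?_⟩, ?_⟩
    · rw [Finset.sum_insert ha]
      exact (abs_add_le _ _).trans (add_le_add (hD x) (hC x))
    · rw [Finset.sum_insert ha, ← hsum, ← hM.add _ _ ⟨D, hD⟩ ⟨C, hC⟩]
      congr 1
      funext x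
      rw [Finset.sum_insert ha]
      rfl

end mean

theorem typ : TypStmt := by
  intro hHIL hERG hNIN G _ M hM V _ _ VX _ _ _ d
  classical
  obtain ⟨Hs, i1, i2, i3, J, R, hJ, hR, hRm⟩ := hHIL G M hM V
  let b : G → BF G V := fun u =>
    ⟨fun x => d.h (x * u) - d.h x, ⟨d.L * d.ℓ u + d.C, fun x => d.lip x u⟩⟩
  have hbx : ∀ u x, (b u : G → V) x = d.h (x * u) - d.h x := fun u x => rfl
  have hb : ∀ u v, b (u * v) = b u + shift u (b v) := by
    intro u v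
    apply Subtype.ext
    funext x
    rw [Submodule.coe_add, Pi.add_apply, shift_apply, hbx, hbx, hbx, mul_assoc]
    abel
  have hB : ∀ u v, J (b (u * v)) = J (b u) + R u (J (b v)) := by
    intro u v
    rw [hb, map_add, hR]
  -- norm bound
  have hJn : ∀ (p : BF G V) (c : ℝ), 0 ≤ c → (∀ x, ‖(p : G → V) x‖ ≤ c) → ‖J p‖ ≤ c := by
    intro p c hc hp
    have h1 : ‖J p‖ ^ 2 ≤ c ^ 2 := by
      rw [hJ]
      have h2 : ∀ x, ‖(p : G → V) x‖ ^ 2 ≤ c ^ 2 := fun x =>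
        pow_le_pow_left₀ (norm_nonneg _) (hp x) 2
      calc M (fun x => ‖(p : G → V) x‖ ^ 2) ≤ M (fun _ => c ^ 2) :=
            mean_mono hM ⟨c ^ 2, fun x => by rw [abs_of_nonneg (by positivity)]; exact h2 x⟩
              ⟨c ^ 2, fun x => by rw [abs_of_nonneg (by positivity)]⟩ h2
        _ = c ^ 2 := mean_const hM _
    exact (pow_le_pow_iff_left₀ (norm_nonneg _) hc two_ne_zero).1 h1
  have hc0 : ∀ u, 0 ≤ d.L * d.ℓ u + d.C := fun u => (norm_nonneg _).trans (d.lip 1 u)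
  have hBn : ∀ u, ‖J (b u)‖ ≤ d.L * d.ℓ u + d.C := fun u =>
    hJn _ _ (hc0 u) (fun x => d.lip x u)
  have hBA : ∀ a, ‖J (b (d.A a))‖ ≤ d.L * d.K * ‖a‖ + d.C := by
    intro a
    refine (hBn _).trans (add_le_add ?_ le_rfl)
    rw [mul_assoc]
    exact mul_le_mul_of_nonneg_left (d.len a) d.L0
  obtain ⟨P, hP1, hP2, hP3⟩ := hERG G VX d.A Hs R (fun u => J (b u)) (d.L * d.K) d.C d.add hRm hB
    (mul_nonneg d.L0 d.K0) d.C0 hBA
  have hn : ∀ n ∈ d.Nn, ∀ a, Tendsto (fun j : ℕ => ((j : ℝ)⁻¹) • J (b (n * d.A ((j : ℝ) • a))))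
      atTop (𝓝 (P a)) := by
    intro n hn
    refine (hNIN G VX d.A Hs R (fun u => J (b u)) P d.D n d.add hRm hB hP2 hP3 d.span ?_).2
    intro a ha
    obtain ⟨C', hC'⟩ := d.con n hn a ha
    exact ⟨d.L * C' + d.C, fun j => (hBn _).trans
      (add_le_add (mul_le_mul_of_nonneg_left (hC' j) d.L0) le_rfl)⟩
  -- the basis
  let bs := Module.finBasis ℝ VX
  let cf : Fin (Module.finrank ℝ VX) → (VX →L[ℝ] ℝ) := fun i =>
    LinearMap.toContinuousLinearMap (bs.coord i)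
  have hcf : ∀ i a, cf i a = bs.coord i a := fun i a => rfl
  let K' : ℝ := ∑ i, ‖cf i‖ * (d.L * (d.K * ‖bs i‖) + d.C)
  have hK' : 0 ≤ K' := Finset.sum_nonneg fun i _ => mul_nonneg (norm_nonneg _)
    (add_nonneg (mul_nonneg d.L0 (mul_nonneg d.K0 (norm_nonneg _))) d.C0)
  refine ⟨K', hK', ?_⟩
  intro T hT ε hε j0
  -- the functions
  let Δ : ℕ → G × VX → BF G V := fun j t =>
    ((j : ℝ)⁻¹) • b (t.1 * d.A ((j : ℝ) • t.2)) -
      ∑ i, (cf i t.2) • (((j : ℝ)⁻¹) • b (d.A ((j : ℝ) • bs i)))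
  have hΔ : ∀ t ∈ T, Tendsto (fun j => J (Δ j t)) atTop (𝓝 0) := by
    intro t ht
    have h1 := hn t.1 (hT t ht) t.2
    have h2 : Tendsto (fun j : ℕ => ∑ i, (cf i t.2) • (((j : ℝ)⁻¹) • J (b (d.A ((j : ℝ) • bs i)))))
        atTop (𝓝 (∑ i, (cf i t.2) • P (bs i))) :=
      tendsto_finsetSum _ fun i _ => (hP2 (bs i)).const_smul _
    have h3 := h1.sub h2
    have e : P t.2 - ∑ i, (cf i t.2) • P (bs i) = 0 := by
      rw [sub_eq_zero]
      conv_lhs => rw [← bs.sum_repr t.2]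
      rw [map_sum]
      refine Finset.sum_congr rfl fun i _ => ?_
      rw [map_smul]
      rfl
    rw [e] at h3
    refine h3.congr fun j => ?_
    simp only [Δ, map_sub, map_smul, map_sum]
  have hsum : Tendsto (fun j => ∑ t ∈ T, ‖J (Δ j t)‖ ^ 2) atTop (𝓝 0) := by
    have : Tendsto (fun j => ∑ t ∈ T, ‖J (Δ j t)‖ ^ 2) atTop (𝓝 (∑ t ∈ T, (0 : ℝ))) := by
      refine tendsto_finsetSum _ fun t ht => ?_
      have h := ((hΔ t ht).norm).pow 2
      simpa using h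
    simpa using this
  have hev : ∀ᶠ j in atTop, ∑ t ∈ T, ‖J (Δ j t)‖ ^ 2 < ε ^ 2 :=
    hsum.eventually_lt_const (by positivity)
  obtain ⟨j, hj1, hj2⟩ := (hev.and (eventually_ge_atTop (max j0 1))).exists
  have hj0 : j0 ≤ j := (le_max_left _ _).trans hj2
  have hj1' : 1 ≤ j := (le_max_right _ _).trans hj2
  have hjr : (1 : ℝ) ≤ j := by exact_mod_cast hj1'
  have hjp : (0 : ℝ) < j := lt_of_lt_of_le one_pos hjr
  -- the good point
  obtain ⟨x, hx⟩ : ∃ x : G, ∑ t ∈ T, ‖(Δ j t : G → V) x‖ ^ 2 < ε ^ 2 := by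
    by_contra hcon
    push Not at hcon
    have hbd : ∀ t ∈ T, ∃ C, ∀ x, |‖(Δ j t : G → V) x‖ ^ 2| ≤ C := by
      intro t _
      obtain ⟨C, hC⟩ := (Δ j t).2
      refine ⟨C ^ 2, fun x => ?_⟩
      rw [abs_of_nonneg (by positivity)]
      exact pow_le_pow_left₀ (norm_nonneg _) (hC x) 2
    obtain ⟨h1, h2⟩ := mean_sum hM T (fun t x => ‖(Δ j t : G → V) x‖ ^ 2) hbd
    have h3 : ε ^ 2 ≤ M (fun x => ∑ t ∈ T, ‖(Δ j t : G → V) x‖ ^ 2) := by
      calc ε ^ 2 = M (fun _ => ε ^ 2) := (mean_const hM _).symm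
        _ ≤ _ := mean_mono hM ⟨ε ^ 2, fun x => by rw [abs_of_nonneg (by positivity)]⟩ h1 hcon
    rw [h2] at h3
    have h4 : ∑ t ∈ T, M (fun x => ‖(Δ j t : G → V) x‖ ^ 2) = ∑ t ∈ T, ‖J (Δ j t)‖ ^ 2 :=
      Finset.sum_congr rfl fun t _ => (hJ _).symm
    rw [h4] at h3
    linarith
  have hxt : ∀ t ∈ T, ‖(Δ j t : G → V) x‖ ≤ ε := by
    intro t ht
    have h1 : ‖(Δ j t : G → V) x‖ ^ 2 ≤ ε ^ 2 :=
      (Finset.single_le_sum (f := fun t => ‖(Δ j t : G → V) x‖ ^ 2)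
        (fun t _ => by positivity) ht).trans hx.le
    exact (pow_le_pow_iff_left₀ (norm_nonneg _) hε.le two_ne_zero).1 h1
  let w : Fin (Module.finrank ℝ VX) → V := fun i =>
    ((j : ℝ)⁻¹) • (d.h (x * d.A ((j : ℝ) • bs i)) - d.h x)
  have hw : ∀ i, ‖w i‖ ≤ d.L * (d.K * ‖bs i‖) + d.C := by
    intro i
    have h1 : ‖d.h (x * d.A ((j : ℝ) • bs i)) - d.h x‖ ≤ d.L * (d.K * (j * ‖bs i‖)) + d.C := by
      refine (d.lip _ _).trans (add_le_add (mul_le_mul_of_nonneg_left ?_ d.L0) le_rfl)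
      refine (d.len _).trans (le_of_eq ?_)
      rw [norm_smul, Real.norm_of_nonneg hjp.le]
    calc ‖w i‖ = (j : ℝ)⁻¹ * ‖d.h (x * d.A ((j : ℝ) • bs i)) - d.h x‖ := by
          rw [norm_smul, Real.norm_of_nonneg (inv_nonneg.2 hjp.le)]
      _ ≤ (j : ℝ)⁻¹ * (d.L * (d.K * (j * ‖bs i‖)) + d.C) :=
          mul_le_mul_of_nonneg_left h1 (inv_nonneg.2 hjp.le)
      _ = d.L * (d.K * ‖bs i‖) + (j : ℝ)⁻¹ * d.C := by field_simp
      _ ≤ d.L * (d.K * ‖bs i‖) + d.C := by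
          have : (j : ℝ)⁻¹ * d.C ≤ 1 * d.C :=
            mul_le_mul_of_nonneg_right (inv_le_one_of_one_le₀ hjr) d.C0
          linarith
  let Q : VX →ₗ[ℝ] V := ∑ i, ((cf i : VX →ₗ[ℝ] ℝ)).smulRight (w i)
  have hQ : ∀ a, Q a = ∑ i, (cf i a) • w i := by
    intro a
    simp only [Q, LinearMap.sum_apply, LinearMap.smulRight_apply]
    rfl
  refine ⟨j, x, Q, hj0, hj1', ?_, ?_⟩
  · intro a
    rw [hQ, Finset.sum_mul]
    refine (norm_sum_le _ _).trans (Finset.sum_le_sum fun i _ => ?_)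
    rw [norm_smul]
    calc ‖cf i a‖ * ‖w i‖ ≤ (‖cf i‖ * ‖a‖) * (d.L * (d.K * ‖bs i‖) + d.C) :=
          mul_le_mul ((cf i).le_opNorm a) (hw i) (norm_nonneg _)
            (mul_nonneg (norm_nonneg _) (norm_nonneg _))
      _ = ‖cf i‖ * (d.L * (d.K * ‖bs i‖) + d.C) * ‖a‖ := by ring
  · intro t ht
    have e : d.h (x * t.1 * d.A ((j : ℝ) • t.2)) - d.h x - (j : ℝ) • Q t.2 =
        (j : ℝ) • (Δ j t : G → V) x := by
      have e1 : (Δ j t : G → V) x = ((j : ℝ)⁻¹) • (d.h (x * (t.1 * d.A ((j : ℝ) • t.2))) - d.h x) -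
          ∑ i, (cf i t.2) • w i := by
        simp only [Δ, Submodule.coe_sub, Pi.sub_apply, Submodule.coe_smul, Pi.smul_apply,
          Submodule.coe_sum, Finset.sum_apply, hbx, w]
      rw [e1, hQ, smul_sub, smul_smul, mul_inv_cancel₀ hjp.ne', one_smul, mul_assoc]
    rw [e, norm_smul, Real.norm_of_nonneg hjp.le, mul_comm]
    exact mul_le_mul_of_nonneg_right (hxt t ht) hjp.le

end Pool.Agent.QSX.H75
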